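import Pool.Agent.W798.SP.Stm2

/-!
# k-fold sums and products of sets of reals: statements of the parts
-/

set_option autoImplicit false

open Finset
open scoped Pointwise

namespace Pool.Agent.W798.KF

open Pool.Agent.W798.SP

/-- `sm A j` is the `(j+1)`-fold sumset of `A`. -/
noncomputable def sm (A : Finset ℝ) : ℕ → Finset ℝ
  | 0 => A
  | j + 1 => A + sm A j

/-- `pr A j` is the `(j+1)`-fold product set of `A`. -/
noncomputable def pr (A : Finset ℝ) : ℕ → Finset ℝ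
  | 0 => A
  | j + 1 => A * pr A j

/-- The exponent for the `(j+2)`-fold sets. -/
noncomputable def ex (j : ℕ) : ℝ :=
  (2781 * (2 ^ j) ^ 2 - 1835 * 2 ^ j + 184) / (2 ^ j * (1854 * 2 ^ j - 1009))

/-- KST: Elekes' inequality for `A + H` and `A * G`. -/
def S_KST : Prop := ∀ A H G : Finset ℝ, (∀ a ∈ A, 0 < a) → (∀ g ∈ G, g ≠ 0) →
  A.card ^ 3 * H.card * G.card ≤ 512 * (A + H).card ^ 2 * (A * G).card ^ 2

/-- TM: the third moment of the numbers of solutions of `z x = y`. -/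
def S_TM : Prop := ∀ A H Y Z : Finset ℝ, H.Nonempty → (∀ z ∈ Z, z ≠ 0) →
  Z.card ≤ A.card * Y.card →
  H.card * ∑ z ∈ Z, (A.filter (fun x => z * x ∈ Y)).card ^ 3 ≤
    4097 * (Nat.log 2 (A + H).card + 1) * ((A + H).card * Y.card) ^ 2

/-- EP: a mixed energy. -/
def S_EP : Prop := ∀ A H S : Finset ℝ, H.Nonempty → (∀ a ∈ A, 0 < a) → (∀ l ∈ S, 0 < l) →
  H.card * (∑ l ∈ S, (fib A l).card * (fib (A * A) l).card) ^ 2 ≤
    4097 * (Nat.log 2 (A + H).card + 1) * A.card * (A * A).card ^ 3 * (A + H).card ^ 2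

/-- C3: Katz-Koester and Cauchy-Schwarz. -/
def S_C3 : Prop := ∀ A S : Finset ℝ, (∀ a ∈ A, 0 < a) → (∀ l ∈ S, 0 < l) →
  (A.card * ∑ l ∈ S, (fib A l).card) ^ 2 ≤
    (∑ l ∈ S, (fib (A * A) l).card) * ∑ l ∈ A / A, (fib A l).card ^ 3

/-- SS: the product set of a set with few sums with some set. -/
def S_SS : Prop := ∀ A H : Finset ℝ, A.Nonempty → H.Nonempty → (∀ a ∈ A, 0 < a) →
  A.card ^ 19 * H.card ^ 5 ≤ (4 * (Nat.log 2 A.card + 1)) ^ 6 *
    (4097 * (Nat.log 2 (A + H).card + 1)) ^ 5 * (A * A).card ^ 9 * (A + H).card ^ 10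

/-- LI: the linear inequalities. -/
def S_LI : Prop := ∀ j : ℕ, ∃ C : ℝ, 0 ≤ C ∧ ∀ (x y : ℕ → ℝ) (n c E : ℝ), 0 ≤ c → 0 ≤ E →
  (∀ i i' : ℕ, 3 * n + x i + y i' ≤ c + 2 * x (i + 1) + 2 * y (i' + 1)) →
  19 * n + 5 * x 1 ≤ E + 9 * y 1 + 10 * x 2 →
  226 * n ≤ E + 103 * x 1 + 66 * y 1 →
  ex j * n ≤ max (x (j + 1)) (y (j + 1)) + C * (c + E)

/-- KP: the result for positive reals. -/
def S_KP : Prop := ∀ (j : ℕ) (δ : ℝ), 0 < δ → ∃ c : ℝ, 0 < c ∧ ∀ A : Finset ℝ, A.Nonempty →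
  (∀ x ∈ A, 0 < x) →
  c * (A.card : ℝ) ^ (ex j - δ) ≤ max ((sm A (j + 1)).card : ℝ) ((pr A (j + 1)).card : ℝ)

/-- KR: the result for reals. -/
def S_KR : Prop := ∀ (j : ℕ) (δ : ℝ), 0 < δ → ∃ c : ℝ, 0 < c ∧ ∀ A : Finset ℝ, A.Nonempty →
  c * (A.card : ℝ) ^ (ex j - δ) ≤ max ((sm A (j + 1)).card : ℝ) ((pr A (j + 1)).card : ℝ)

/-- IM: the recursive sets are the sets of sums and products of families. -/
def S_IM : Prop := ∀ (R : Type) [CommRing R] [DecidableEq R] (f : R →+* ℝ), Function.Injective f →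
  ∀ (A : Finset R) (j : ℕ),
    (sm (A.image f) j).card = ((Fintype.piFinset (fun _ : Fin (j + 1) => A)).image
      (fun g : Fin (j + 1) → R => ∑ i, g i)).card ∧
    (pr (A.image f) j).card = ((Fintype.piFinset (fun _ : Fin (j + 1) => A)).image
      (fun g : Fin (j + 1) → R => ∏ i, g i)).card

end Pool.Agent.W798.KF
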