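import Pool.Agent.W798.SP.Chain2
import Pool.Agent.W287.KF.KST
import Pool.Agent.W762.KF.TM
import Pool.Agent.W20.KF.EP
import Pool.Agent.W715.KF.C3
import Pool.Agent.W32.KF.SS
import Pool.Agent.W359.KF.Li
import Pool.Agent.W741.KF.KP
import Pool.Agent.W839.KF.KR
import Pool.Agent.W215.KF.IM

/-!
# k-fold sums and products: the chain of the parts
-/

set_option autoImplicit false

namespace Pool.Agent.W798.KF

open Pool.Agent.W798.SP

theorem pKST : S_KST := Pool.Agent.W287.KF.tKST Pool.Agent.W975.SP.st1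
theorem pTM : S_TM := Pool.Agent.W762.KF.tTM pST2
theorem pEP : S_EP := Pool.Agent.W20.KF.tEP pTM
theorem pC3 : S_C3 := Pool.Agent.W715.KF.tC3
theorem pSS : S_SS := Pool.Agent.W32.KF.tSS pTM pEP pC3 pDY
theorem pLI : S_LI := Pool.Agent.W359.KF.li
theorem pKP : S_KP := Pool.Agent.W741.KF.tKP pKST pSS pLI pPO2
theorem pKR : S_KR := Pool.Agent.W839.KF.tKR pKP
theorem pIM : S_IM := Pool.Agent.W215.KF.IM.t

end Pool.Agent.W798.KF
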