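import Pool.Agent.W798.KF.Chain

/-!
# KF: sharper exponents for k at least 3
-/

set_option autoImplicit false
set_option linter.all false
set_option maxHeartbeats 1000000

open Finset
open scoped Classical Pointwise

namespace Pool.Agent.W798.KF.Up

open Pool.Agent.W904.AK Pool.Agent.W798.SP Pool.Agent.W798.KF
open Pool.Agent.W32.SPY (lj_le Cst_le Er_le)
open Pool.Agent.W741.KF (lg_le sm_ne pr_ne pr_pos)

theorem arith (N P D h L n T E3 Q V : ℕ)
    (e2 : h * E3 ≤ L * (D * N) ^ 2)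
    (e4 : (N * (n * T)) ^ 2 ≤ Q * E3) (e5 : T * Q ≤ V) (e6 : h * V ^ 2 ≤ L * N * P ^ 3 * D ^ 2) :
    h ^ 3 * (T * (N * (n * T)) ^ 2) ^ 2 ≤
      (L * N * P ^ 3 * D ^ 2) * (L * (D * N) ^ 2) ^ 2 := by
  have s1 : T * (N * (n * T)) ^ 2 ≤ V * E3 := by
    calc T * (N * (n * T)) ^ 2 ≤ T * (Q * E3) := Nat.mul_le_mul_left _ e4
      _ = (T * Q) * E3 := by ring
      _ ≤ V * E3 := Nat.mul_le_mul_right _ e5
  calc h ^ 3 * (T * (N * (n * T)) ^ 2) ^ 2 ≤ h ^ 3 * (V * E3) ^ 2 :=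
        Nat.mul_le_mul_left _ (Nat.pow_le_pow_left s1 2)
    _ = (h * V ^ 2) * (h * E3) ^ 2 := by ring
    _ ≤ (L * N * P ^ 3 * D ^ 2) * (L * (D * N) ^ 2) ^ 2 :=
        Nat.mul_le_mul e6 (Nat.pow_le_pow_left e2 2)

theorem sub_div {A S : Finset ℝ} {T : ℕ} (hpos : ∀ x ∈ A, 0 < x) (hT1 : 1 ≤ T)
    (hS : ∀ l ∈ S, 0 < l ∧ T ≤ (fib A l).card ∧ (fib A l).card < 2 * T) : S ⊆ A / A := by
  intro l hl
  have h1 : 0 < (fib A l).card := lt_of_lt_of_le hT1 (hS l hl).2.1
  obtain ⟨x, hx⟩ := Finset.card_pos.1 h1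
  rw [Pool.Agent.W32.KF.fib_eq, Finset.mem_filter] at hx
  refine Finset.mem_div.2 ⟨l * x, hx.2, x, hx.1, ?_⟩
  exact mul_div_cancel_right₀ l (hpos x hx.1).ne'

theorem dd {A H S : Finset ℝ} {T : ℕ} (hH : H.Nonempty) (hpos : ∀ x ∈ A, 0 < x) (hT1 : 1 ≤ T)
    (hS : ∀ l ∈ S, 0 < l ∧ T ≤ (fib A l).card ∧ (fib A l).card < 2 * T) :
    H.card ^ 3 * (T * (A.card * (S.card * T)) ^ 2) ^ 2 ≤
      (4097 * (Nat.log 2 (A + H).card + 1) * A.card * (A * A).card ^ 3 * (A + H).card ^ 2) *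
        (4097 * (Nat.log 2 (A + H).card + 1) * ((A + H).card * A.card) ^ 2) ^ 2 := by
  have hTM' := pTM A H A (A / A) hH (by
    intro z hz
    obtain ⟨a, ha, b, hb, rfl⟩ := Finset.mem_div.1 hz
    exact div_ne_zero (hpos a ha).ne' (hpos b hb).ne') Finset.card_div_le
  simp only [← Pool.Agent.W32.KF.fib_eq] at hTM'
  have hSp : ∀ l ∈ S, 0 < l := fun l hl => (hS l hl).1
  have hEP' := pEP A H S hH hpos hSp
  have hC3' := pC3 A S hpos hSp
  refine arith A.card (A * A).card (A + H).card H.card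
    (4097 * (Nat.log 2 (A + H).card + 1)) S.card T (∑ l ∈ A / A, (fib A l).card ^ 3)
    (∑ l ∈ S, (fib (A * A) l).card) (∑ l ∈ S, (fib A l).card * (fib (A * A) l).card)
    hTM' ?_ ?_ hEP'
  · refine le_trans (Nat.pow_le_pow_left (Nat.mul_le_mul_left _ ?_) 2) hC3'
    calc S.card * T = ∑ _l ∈ S, T := by rw [Finset.sum_const, smul_eq_mul]
      _ ≤ ∑ l ∈ S, (fib A l).card := Finset.sum_le_sum fun l hl => (hS l hl).2.1
  · rw [Finset.mul_sum]
    exact Finset.sum_le_sum fun l hl => Nat.mul_le_mul_right _ (hS l hl).2.1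

theorem en_ge {A S : Finset ℝ} {T : ℕ} (hpos : ∀ x ∈ A, 0 < x) (hT1 : 1 ≤ T)
    (hS : ∀ l ∈ S, 0 < l ∧ T ≤ (fib A l).card ∧ (fib A l).card < 2 * T) :
    S.card * T ^ 2 ≤ en A := by
  calc S.card * T ^ 2 = ∑ _l ∈ S, T ^ 2 := by rw [Finset.sum_const, smul_eq_mul]
    _ ≤ ∑ l ∈ S, (fib A l).card ^ 2 :=
        Finset.sum_le_sum fun l hl => Nat.pow_le_pow_left (hS l hl).2.1 2
    _ ≤ ∑ l ∈ A / A, (fib A l).card ^ 2 := Finset.sum_le_sum_of_subset (sub_div hpos hT1 hS)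
    _ = en A := rfl

/-- the logarithmic form -/
theorem ci {δ : ℝ} (hδ : 0 < δ) (A : Finset ℝ) (hA : A.Nonempty) (hpos : ∀ x ∈ A, 0 < x) :
    518 * Real.log A.card ≤ 188 * Real.log (A + A).card + 162 * Real.log (A * A).card +
      36 * Real.log (A + (A + A)).card + δ * Real.log A.card +
      (|1074 * Real.log 2 + 29 * Real.log 4097 +
        248 * (3 * (δ / 1100) - Real.log (δ / 1100)) + 18 * (δ / 1100 - Real.log (δ / 1100))| +
      |729 * Real.log 2 + 243 * (3 * (δ / 1100) - Real.log (δ / 1100))|) := by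
  have hAS := pAS2
  have hDY := pDY
  have hEN := pEN
  have hCS := pCS
  obtain ⟨η, hηd⟩ : ∃ η : ℝ, η = δ / 1100 := ⟨_, rfl⟩
  have hη : 0 < η := by rw [hηd]; positivity
  rw [← hηd]
  obtain ⟨N, hNd⟩ : ∃ N : ℕ, N = A.card := ⟨_, rfl⟩
  obtain ⟨K, hKd⟩ : ∃ K : ℕ, K = (A + A).card := ⟨_, rfl⟩
  obtain ⟨P, hPd⟩ : ∃ P : ℕ, P = (A * A).card := ⟨_, rfl⟩
  have hN1 : 1 ≤ N := by rw [hNd]; exact hA.card_pos
  have hNK : N ≤ K := by rw [hNd, hKd]; exact Finset.card_le_card_add_self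
  have hP1 : 1 ≤ P := by rw [hPd]; exact (hA.mul hA).card_pos
  have hPN : P ≤ N * N := by rw [hPd, hNd]; exact Finset.card_mul_le
  have hK1 : 1 ≤ K := hN1.trans hNK
  obtain ⟨T, S, hT1, hTN, hS, hE1, hE2⟩ := hDY A hA hpos
  have hEN1 := hEN A hpos
  have hCS1 := (hCS A hpos).1
  have hAS1 := hAS A S T
  have hdd := dd (A := A) (H := A + A) (hA.add hA) hpos hT1 hS
  have hge := en_ge hpos hT1 hS
  rw [← hNd, ← hPd] at hE1 hCS1
  rw [← hNd] at hTN hE2
  rw [← hNd, ← hKd] at hEN1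
  rw [← hNd, ← hKd, ← hPd]
  obtain ⟨n, hnd⟩ : ∃ n : ℕ, n = S.card := ⟨_, rfl⟩
  rw [← hnd] at hE1 hE2
  obtain ⟨J, hJd⟩ : ∃ J : ℕ, J = Nat.log 2 N + 1 := ⟨_, rfl⟩
  rw [← hJd] at hE1 hEN1
  have hJ1 : 1 ≤ J := by omega
  have hn1 : 1 ≤ n := by
    by_contra h
    have h0 : n = 0 := by omega
    rw [h0] at hE1
    have : 0 < N ^ 4 := by positivity
    simp at hE1
    omega
  obtain ⟨E, hEd⟩ : ∃ E : ℕ, E = en A := ⟨_, rfl⟩
  rw [← hEd] at hEN1 hCS1
  have hEpos : 1 ≤ E := by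
    by_contra h
    have h0 : E = 0 := by omega
    rw [h0] at hCS1
    have : 0 < N ^ 4 := by positivity
    simp at hCS1
    omega
  obtain ⟨D, hDd⟩ : ∃ D : ℕ, D = (A + (A + A)).card := ⟨_, rfl⟩
  have hKD : K ≤ D := by
    rw [hKd, hDd]
    exact Finset.card_le_card_add_left hA
  have hD1 : 1 ≤ D := hK1.trans hKD
  have hDN : D ≤ N ^ 3 := by
    have h1 : (A + (A + A)).card ≤ A.card * (A + A).card := Finset.card_add_le
    have h2 : (A + A).card ≤ A.card * A.card := Finset.card_add_le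
    rw [hDd, hNd]
    calc (A + (A + A)).card ≤ A.card * (A + A).card := h1
      _ ≤ A.card * (A.card * A.card) := Nat.mul_le_mul_left _ h2
      _ = A.card ^ 3 := by ring
  rw [← hNd, ← hKd, ← hPd, ← hDd, ← hnd] at hdd
  rw [← hnd, ← hEd] at hge
  -- real casts
  have rN : (1 : ℝ) ≤ N := by exact_mod_cast hN1
  have rK : (1 : ℝ) ≤ K := by exact_mod_cast hK1
  have rP : (1 : ℝ) ≤ P := by exact_mod_cast hP1
  have rT : (1 : ℝ) ≤ T := by exact_mod_cast hT1
  have rn : (1 : ℝ) ≤ n := by exact_mod_cast hn1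
  have rJ : (1 : ℝ) ≤ J := by exact_mod_cast hJ1
  have rE : (1 : ℝ) ≤ E := by exact_mod_cast hEpos
  have rNK : (N : ℝ) ≤ K := by exact_mod_cast hNK
  have rTN : (T : ℝ) ≤ N := by exact_mod_cast hTN
  have rE1 : (N : ℝ) ^ 4 ≤ 4 * P * J * (n * T ^ 2) := by exact_mod_cast hE1
  have rE2 : (n : ℝ) * T ≤ N ^ 2 := by exact_mod_cast hE2
  have rEN : (E : ℝ) ≤ 8 * K ^ 2 * J := by exact_mod_cast hEN1
  have rCS : (N : ℝ) ^ 4 ≤ P * E := by exact_mod_cast hCS1
  -- logs
  obtain ⟨L, hL⟩ : ∃ L : ℝ, L = Real.log N := ⟨_, rfl⟩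
  obtain ⟨s, hs⟩ : ∃ s : ℝ, s = Real.log K := ⟨_, rfl⟩
  obtain ⟨q, hq⟩ : ∃ q : ℝ, q = Real.log P := ⟨_, rfl⟩
  obtain ⟨j, hj⟩ : ∃ j : ℝ, j = Real.log J := ⟨_, rfl⟩
  obtain ⟨t, ht⟩ : ∃ t : ℝ, t = Real.log T := ⟨_, rfl⟩
  obtain ⟨ν, hν⟩ : ∃ ν : ℝ, ν = Real.log n := ⟨_, rfl⟩
  obtain ⟨jj, hjj⟩ : ∃ jj : ℝ, jj = Real.log (2 * (J : ℝ) + 1) := ⟨_, rfl⟩
  have hL0 : 0 ≤ L := by rw [hL]; exact Real.log_nonneg rN
  have hLs : L ≤ s := by rw [hL, hs]; exact Real.log_le_log (by linarith) rNK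
  have hjjj : j ≤ jj := by
    rw [hj, hjj]
    exact Real.log_le_log (by linarith) (by linarith)
  have hjjη : jj ≤ η * (3 + 4 * L) - Real.log η := by
    have := lj_le hη N hN1
    rw [hjj, hL, hJd]
    push_cast
    exact this
  have e4 : Real.log 4 = 2 * Real.log 2 := by
    rw [show (4 : ℝ) = 2 ^ 2 by norm_num, Real.log_pow]
    push_cast
    ring
  have lE1 : 4 * L ≤ 2 * Real.log 2 + q + j + (ν + 2 * t) := by
    have h := Real.log_le_log (by positivity) rE1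
    rw [Real.log_pow, Real.log_mul (by positivity) (by positivity),
      Real.log_mul (by positivity) (by positivity), Real.log_mul (by positivity) (by positivity),
      Real.log_mul (by positivity) (by positivity), Real.log_pow, e4] at h
    push_cast at h
    rw [hL, hq, hj, hν, ht]
    linarith
  have lE2 : ν + t ≤ 2 * L := by
    have h := Real.log_le_log (by positivity) rE2
    rw [Real.log_mul (by positivity) (by positivity), Real.log_pow] at h
    push_cast at h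
    rw [hL, hν, ht]
    linarith
  obtain ⟨D', hD'⟩ : ∃ D' : ℝ, D' = Real.log D := ⟨_, rfl⟩
  obtain ⟨lg, hlg⟩ : ∃ lg : ℝ, lg = Real.log (4097 * ((Nat.log 2 D : ℝ) + 1)) := ⟨_, rfl⟩
  have rD : (1 : ℝ) ≤ D := by exact_mod_cast hD1
  have rKD : (K : ℝ) ≤ D := by exact_mod_cast hKD
  have hsD : s ≤ D' := by rw [hs, hD']; exact Real.log_le_log (by linarith) rKD
  have hlgle : lg ≤ Real.log 4097 + (η * (6 * L + 1) - Real.log η) := by
    have := lg_le hη hN1 hD1 hDN 4097 (by norm_num)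
    rw [hlg, hL]
    exact this
  have rge : (n : ℝ) * T ^ 2 ≤ E := by exact_mod_cast hge
  have ldd : 3 * s + 6 * t + 4 * ν ≤ L + 3 * q + 6 * D' + 3 * lg := by
    have rdd : (K : ℝ) ^ 3 * (T * (N * (n * T)) ^ 2) ^ 2 ≤
        ((4097 * ((Nat.log 2 D : ℝ) + 1)) * N * P ^ 3 * D ^ 2) *
          ((4097 * ((Nat.log 2 D : ℝ) + 1)) * (D * N) ^ 2) ^ 2 := by exact_mod_cast hdd
    have hl0 : (0 : ℝ) ≤ (Nat.log 2 D : ℝ) := Nat.cast_nonneg _
    have hG : (0 : ℝ) < 4097 * ((Nat.log 2 D : ℝ) + 1) := by positivity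
    have h := Real.log_le_log (by positivity) rdd
    rw [Real.log_mul (by positivity) (by positivity), Real.log_pow, Real.log_pow,
      Real.log_mul (x := (T : ℝ)) (by positivity) (by positivity), Real.log_pow,
      Real.log_mul (x := (N : ℝ)) (by positivity) (by positivity),
      Real.log_mul (x := (n : ℝ)) (by positivity) (by positivity),
      Real.log_mul (x := (4097 * ((Nat.log 2 D : ℝ) + 1)) * N * P ^ 3 * D ^ 2) (by positivity)
        (by positivity),
      Real.log_mul (x := (4097 * ((Nat.log 2 D : ℝ) + 1)) * N * P ^ 3) (by positivity)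
        (by positivity),
      Real.log_mul (x := (4097 * ((Nat.log 2 D : ℝ) + 1)) * N) (by positivity) (by positivity),
      Real.log_mul (x := (4097 * ((Nat.log 2 D : ℝ) + 1))) (y := (N : ℝ)) (by positivity)
        (by positivity), Real.log_pow, Real.log_pow, Real.log_pow,
      Real.log_mul (x := (4097 * ((Nat.log 2 D : ℝ) + 1))) (y := ((D : ℝ) * N) ^ 2)
        (by positivity) (by positivity), Real.log_pow,
      Real.log_mul (x := (D : ℝ)) (by positivity) (by positivity), ← hlg, ← hs, ← ht, ← hL,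
      ← hν, ← hq, ← hD'] at h
    push_cast at h
    linarith
  obtain ⟨M, hMd⟩ : ∃ M : ℕ, M = max 2 ⌈16 * (K : ℝ) ^ 2 / (n * T ^ 2)⌉₊ := ⟨_, rfl⟩
  have hM2 : 2 ≤ M := by rw [hMd]; exact le_max_left _ _
  have hMr : 16 * (K : ℝ) ^ 2 / (n * T ^ 2) ≤ M := by
    refine (Nat.le_ceil _).trans ?_
    rw [hMd]
    exact_mod_cast le_max_right _ _
  have hM16 : 16 * K ^ 2 ≤ M * n * T ^ 2 := by
    rw [div_le_iff₀ (by positivity)] at hMr
    have : (16 * (K : ℝ) ^ 2) ≤ M * n * T ^ 2 := by linarith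
    exact_mod_cast this
  have hMup : (M : ℝ) ≤ 32 * K ^ 2 * J / (n * T ^ 2) := by
    have h1 : (M : ℝ) ≤ 16 * (K : ℝ) ^ 2 / (n * T ^ 2) + 2 := by
      rw [hMd, Nat.cast_max]
      refine max_le ?_ ?_
      · have : 0 ≤ 16 * (K : ℝ) ^ 2 / (n * T ^ 2) := by positivity
        push_cast
        linarith
      · have := (Nat.ceil_lt_add_one (show 0 ≤ 16 * (K : ℝ) ^ 2 / (n * T ^ 2) by positivity)).le
        linarith
    have h2 : 16 * (K : ℝ) ^ 2 / (n * T ^ 2) ≤ 16 * K ^ 2 * J / (n * T ^ 2) := by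
      refine div_le_div_of_nonneg_right ?_ (by positivity)
      have := mul_le_mul_of_nonneg_left rJ (show (0 : ℝ) ≤ 16 * K ^ 2 by positivity)
      linarith
    have h3 : (2 : ℝ) ≤ 16 * K ^ 2 * J / (n * T ^ 2) := by
      rw [le_div_iff₀ (by positivity)]
      linarith
    have h4 : 16 * (K : ℝ) ^ 2 * J / (n * T ^ 2) + 16 * K ^ 2 * J / (n * T ^ 2) =
        32 * K ^ 2 * J / (n * T ^ 2) := by ring
    linarith
  have l32 : Real.log (32 : ℝ) = 5 * Real.log 2 := by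
    rw [show (32 : ℝ) = 2 ^ 5 by norm_num, Real.log_pow]
    push_cast
    ring
  have lM : Real.log (32 * (K : ℝ) ^ 2 * J / (n * T ^ 2)) =
      5 * Real.log 2 + 2 * s + j - (ν + 2 * t) := by
    rw [Real.log_div (by positivity) (by positivity), Real.log_mul (by positivity) (by positivity),
      Real.log_mul (by positivity) (by positivity), Real.log_mul (by positivity) (by positivity),
      Real.log_pow, Real.log_pow, l32]
    push_cast
    rw [hs, hj, hν, ht]
  have hab := le_abs_self (1074 * Real.log 2 + 29 * Real.log 4097 +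
        248 * (3 * η - Real.log η) + 18 * (η - Real.log η))
  have hab2 := abs_nonneg (1074 * Real.log 2 + 29 * Real.log 4097 +
        248 * (3 * η - Real.log η) + 18 * (η - Real.log η))
  have hab3 := le_abs_self (729 * Real.log 2 + 243 * (3 * η - Real.log η))
  have hab4 := abs_nonneg (729 * Real.log 2 + 243 * (3 * η - Real.log η))
  rcases le_or_gt M n with hMn | hMn
  · -- first case
    have h1 := hAS1 M hA hpos hT1 hM2 (by rw [← hnd]; exact hMn) hS
      (by rw [← hnd, ← hKd]; exact hM16)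
    rw [← hNd, ← hPd, ← hnd, ← hEd] at h1
    have rM : (1 : ℝ) ≤ M := by exact_mod_cast (by omega : 1 ≤ M)
    have g1 : Real.log ((T : ℝ) ^ 2 / (16 * (M : ℝ) ^ 2)) = 2 * t - 4 * Real.log 2 - 2 * Real.log M := by
      rw [Real.log_div (by positivity) (by positivity), Real.log_mul (by norm_num) (by positivity),
        Real.log_pow, Real.log_pow, show (16 : ℝ) = 2 ^ 4 by norm_num, Real.log_pow, ht]
      push_cast
      ring
    have g2 : Real.log ((2 * T : ℕ) : ℝ) = Real.log 2 + t := by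
      push_cast
      rw [Real.log_mul (by norm_num) (by positivity), ht]
    have g3 : Real.log ((n : ℝ) / 64) = ν - 6 * Real.log 2 := by
      rw [Real.log_div (by positivity) (by norm_num), show (64 : ℝ) = 2 ^ 6 by norm_num,
        Real.log_pow, hν]
      push_cast
      ring
    have g4 : Real.log (E : ℝ) ≤ 3 * Real.log 2 + 2 * s + j := by
      have h := Real.log_le_log (by positivity) rEN
      rw [Real.log_mul (by positivity) (by positivity), Real.log_mul (by positivity) (by positivity),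
        Real.log_pow, show (8 : ℝ) = 2 ^ 3 by norm_num, Real.log_pow] at h
      push_cast at h
      rw [hs, hj]
      linarith
    have g5 : Real.log (M : ℝ) ≤ 5 * Real.log 2 + 2 * s + j - (ν + 2 * t) := by
      rw [← lM]
      exact Real.log_le_log (by positivity) hMup
    have g6 : Cst (2 * T) ≤ Real.log 4097 + jj := by
      rw [hjj]
      refine Cst_le ?_
      have : Nat.log 2 (2 * T) = Nat.log 2 T + 1 := by
        rw [mul_comm]
        exact Nat.log_mul_base (by norm_num) (by omega)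
      have h2 : Nat.log 2 T ≤ Nat.log 2 N := Nat.log_mono_right hTN
      omega
    have g7 : Er P ≤ 5 * Real.log 2 + Real.log 4097 + 7 * jj := by
      rw [hjj, hJd]
      exact Er_le hN1 hP1 hPN
    rw [g1, g2, g3] at h1
    rw [← hL, ← hq] at h1
    have hfin : 518 * L ≤ 162 * q + 188 * s + 36 * D' + (1074 * Real.log 2 +
        11 * Real.log 4097) + 248 * jj + 18 * lg := by
      linarith only [h1, g4, g5, g6, g7, lE1, ldd, hjjj]
    have hηδ : 1100 * η * L = δ * L := by rw [hηd]; ring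
    rw [← hL, ← hs, ← hq, ← hDd, ← hD']
    linarith only [hfin, hjjη, hlgle, hηδ, hab, hab2, hab3, hab4]
  · -- second case
    have k1 : (n : ℝ) ≤ 32 * K ^ 2 * J / (n * T ^ 2) := by
      have : (n : ℝ) ≤ M := by exact_mod_cast hMn.le
      exact this.trans hMup
    have k2 : ν ≤ 5 * Real.log 2 + 2 * s + j - (ν + 2 * t) := by
      rw [← lM, hν]
      exact Real.log_le_log (by positivity) k1
    have k3 : t ≤ L := by rw [ht, hL]; exact Real.log_le_log (by linarith) rTN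
    have k5 : 3 * L ≤ 9 / 2 * Real.log 2 + s + q + 3 / 2 * jj := by
      linarith only [k2, k3, lE1, hjjj]
    have hηδ : 1100 * η * L = δ * L := by rw [hηd]; ring
    have hηL : 0 ≤ η * L := mul_nonneg hη.le hL0
    rw [← hL, ← hs, ← hq, ← hDd, ← hD']
    nlinarith only [k5, hjjη, hηδ, hηL, hab, hab2, hab3, hab4, hsD, hLs, hL0]

end Pool.Agent.W798.KF.Up
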